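import Pool.Agent.H37.CNJ.Stmts

/-!
# Row `PMY` of the board `cnj` (helper25)
-/

set_option autoImplicit false

namespace Pool.CND

open Finset
open scoped Matrix

theorem pmy_thm (hAPD : S_APD) (hZHF : S_ZHF) : S_PMY := by
  intro p n r k F G _ _ _ _ _ _ _ _ A κ β hp hp2 hcd hA hn hr hκ hκ1 hβ hβs hc hi
  have h1 := (hAPD p k G A hp hp2 hcd hA).2
  have h2 := hZHF p n r k F G κ β hp hn hr hcd hκ hκ1 hβ hβs hc
  have h3 : Nat.gcd 2 p = 1 := (Nat.coprime_primes Nat.prime_two hp).2 (Ne.symm hp2)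
  rw [h3, one_mul, ← hi] at h2
  exact Nat.dvd_antisymm h1 h2

end Pool.CND
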